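import Pool.Agent.Helper19.HV.XS

/-!
# Project HV (MP_bae8ce_ag), module CON: algebraic contraction
-/

set_option autoImplicit false

namespace Pool.Agent.Helper19.HV

noncomputable section

open PL

/-- CON. -/
theorem mCON {F : Type} [Field F] (M : F4 F) (hM : ∀ v w z, M v v w z = 0) (hc : Cv4 M)
    (h : ∀ w v, M w v v v = 0) :
    ∃ L : F4 F, Cv4 L ∧ (∀ v k l, L v v k l = 0) ∧ (∀ v w k, L v w k k = 0) ∧
      ∀ x y k, L x y y k = M x y y k := by
  have ha : ∀ a b c d, M a b c d = - M b a c d := by
    intro a b c d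
    have h1 := hM (a + b) c d
    simp only [map_add, LinearMap.add_apply, hM] at h1
    linarith
  have hp : ∀ w b c d, M w b c d + M w b d c + M w c b d + M w c d b + M w d b c +
      M w d c b = 0 := by
    intro w b c d
    have h1 := h w (b + c + d)
    have h2 := h w (b + c)
    have h3 := h w (b + d)
    have h4 := h w (c + d)
    simp only [map_add, LinearMap.add_apply, h] at h1 h2 h3 h4
    linarith
  obtain ⟨L, hL⟩ := mk4 (fun x y k l : V (RatFunc F) =>
      (5 / 24 : ℚ) * ((M x y k l + M x k y l) - (M x y l k + M x l y k)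
        - (M y x k l + M y k x l) + (M y x l k + M y l x k)) -
      (1 / 24 : ℚ) * ((M k x l y + M k l x y) - (M l x k y + M l k x y)
        - (M k y l x + M k l y x) + (M l y k x + M l k y x)))
    (fun _ _ _ => ⟨fun _ _ => by
      simp only [map_add, LinearMap.add_apply]; ring, fun _ _ => by
      simp only [map_smul, LinearMap.smul_apply, smul_eq_mul]; ring⟩)
    (fun _ _ _ => ⟨fun _ _ => by
      simp only [map_add, LinearMap.add_apply]; ring, fun _ _ => by
      simp only [map_smul, LinearMap.smul_apply, smul_eq_mul]; ring⟩)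
    (fun _ _ _ => ⟨fun _ _ => by
      simp only [map_add, LinearMap.add_apply]; ring, fun _ _ => by
      simp only [map_smul, LinearMap.smul_apply, smul_eq_mul]; ring⟩)
    (fun _ _ _ => ⟨fun _ _ => by
      simp only [map_add, LinearMap.add_apply]; ring, fun _ _ => by
      simp only [map_smul, LinearMap.smul_apply, smul_eq_mul]; ring⟩)
  refine ⟨L, ⟨?_, ?_, ?_, ?_⟩, ?_, ?_, ?_⟩
  · intro c v w z
    rw [hL]
    simp only [hc.c1, hc.c2, hc.c3, hc.c4]
    ring
  · intro c v w z
    rw [hL]
    simp only [hc.c1, hc.c2, hc.c3, hc.c4]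
    ring
  · intro c v w z
    rw [hL]
    simp only [hc.c1, hc.c2, hc.c3, hc.c4]
    ring
  · intro c v w z
    rw [hL]
    simp only [hc.c1, hc.c2, hc.c3, hc.c4]
    ring
  · intro v k l
    rw [hL]; ring
  · intro v w k
    rw [hL]; ring
  · intro x y k
    rw [hL]
    have r1 := ha y x y k
    have r2 := ha y x k y
    have r3 := ha k x y y
    have r4 := hM y x k
    have r5 := hM y k x
    have r6 := ha k y x y
    have r7 := ha k y y x
    have s1 := hp x y y k
    have s2 := hp y x y k
    have s3 := hp k x y y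
    linarith

end

end Pool.Agent.Helper19.HV
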