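import Pool.Agent.Helper19.HV.Curve
import Pool.Agent.Helper91.PL.A5
import Pool.Agent.Helper91.PL.A4

/-!
# Project HV (MP_bae8ce_ag), module F2: symbols kill `R 2`
-/

set_option autoImplicit false

namespace Pool.Agent.Helper19.HV

noncomputable section

open PL

/-- the multilinear map of a bilinear form -/
private def bil {U : Type} [AddCommGroup U] [Module ℚ U] (B : U →ₗ[ℚ] U →ₗ[ℚ] ℚ) :
    MultilinearMap ℚ (fun _ : Fin (0 + 2) => U) ℚ where
  toFun x := B (x 0) (x 1)
  map_update_add' := by
    intro inst m i x y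
    have hi : inst = instDecidableEqFin _ := Subsingleton.elim _ _
    subst hi
    fin_cases i <;> simp [Function.update]
  map_update_smul' := by
    intro inst m i c x
    have hi : inst = instDecidableEqFin _ := Subsingleton.elim _ _
    subst hi
    fin_cases i <;> simp [Function.update]

private theorem al2_neg {U N : Type} [AddCommGroup U] [Module ℚ U] [AddCommGroup N] [Module ℚ N]
    (A : U →ₗ[ℚ] U →ₗ[ℚ] N) (hA : Al2 A) (a b : U) : A a b = - A b a := by
  have h := hA (a + b)
  rw [map_add, map_add, LinearMap.add_apply, LinearMap.add_apply, hA a, hA b, zero_add,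
    add_zero] at h
  exact eq_neg_of_add_eq_zero_right h

private theorem sy_bil {G : Type} [Field G] (B : V G →ₗ[ℚ] V G →ₗ[ℚ] ℚ) (x : P1 G) :
    Sy (q := 0) (bil B) x = B (cl1 x) (cl x) - B (cl x) (cl1 x) := rfl

private theorem nn_kil {G N : Type} [Field G] [AddCommGroup N] [Module ℚ N]
    (A : V G →ₗ[ℚ] V G →ₗ[ℚ] N) (hA : Al2 A) (β : ZP G) (h : β ∈ NN 0 G) :
    Finsupp.linearCombination ℚ (sy2 A) β = 0 := by
  rw [← Module.forall_dual_apply_eq_zero_iff ℚ]
  intro f
  have h1 : Finsupp.linearCombination ℚ (Sy (q := 0) (bil (A.compr₂ f))) β = 0 := by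
    have := (Submodule.mem_iInf _).1 h (bil (A.compr₂ f))
    exact this
  have h2 : f (Finsupp.linearCombination ℚ (sy2 A) β) =
      Finsupp.linearCombination ℚ (fun x => f (sy2 A x)) β := by
    rw [Finsupp.linearCombination_apply, Finsupp.linearCombination_apply, Finsupp.sum,
      Finsupp.sum, map_sum]
    exact Finset.sum_congr rfl fun x _ => by rw [map_smul]
  have h3 : Finsupp.linearCombination ℚ (Sy (q := 0) (bil (A.compr₂ f))) β =
      2 * Finsupp.linearCombination ℚ (fun x => f (sy2 A x)) β := by
    rw [Finsupp.linearCombination_apply, Finsupp.linearCombination_apply, Finsupp.sum,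
      Finsupp.sum, Finset.mul_sum]
    refine Finset.sum_congr rfl fun x _ => ?_
    rw [sy_bil, LinearMap.compr₂_apply, LinearMap.compr₂_apply, al2_neg A hA (cl x) (cl1 x),
      map_neg]
    show β x * (f (A (cl1 x) (cl x)) - -f (A (cl1 x) (cl x))) =
      2 * (β x * f (A (cl1 x) (cl x)))
    ring
  rw [h2]
  rw [h1] at h3
  linarith

/-- F2.  Symbols kill `R 2` (any field). -/
theorem mF2 {G N : Type} [Field G] [AddCommGroup N] [Module ℚ N]
    (A : V G →ₗ[ℚ] V G →ₗ[ℚ] N) (hA : Al2 A) : Kil 2 (sy2 A) := by
  have key : R 2 G ≤ LinearMap.ker (Finsupp.linearCombination ℚ (sy2 A)) := by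
    refine sup_le ?_ ?_
    · rw [Submodule.span_le]
      intro x hx
      rcases hx with rfl | rfl
      · show Finsupp.linearCombination ℚ (sy2 A) (Finsupp.single (some 0) 1) = 0
        rw [Finsupp.linearCombination_single, one_smul]
        show A (cl1 (some 0)) (lg 0) = 0
        rw [show lg (0 : G) = 0 from dif_pos rfl, map_zero]
      · show Finsupp.linearCombination ℚ (sy2 A) (Finsupp.single none 1) = 0
        rw [Finsupp.linearCombination_single, one_smul]
        show A (cl1 none) (0 : V G) = 0
        rw [map_zero]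
    · rintro _ ⟨α, hα, rfl⟩
      have hα' : α ∈ NN 0 (RatFunc G) := by
        have : α ∈ LinearMap.ker (δ2 (RatFunc G)) := hα
        rwa [ker_δ2] at this
      show Finsupp.linearCombination ℚ (sy2 A) ((spec (0 : G) - spec (1 : G)) α) = 0
      rw [LinearMap.sub_apply, map_sub, nn_kil A hA _ (NN_spec 0 0 hα'),
        nn_kil A hA _ (NN_spec 0 1 hα'), sub_zero]
  intro α hα
  exact key hα

end

end Pool.Agent.Helper19.HV
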