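import Pool.Agent.Helper19.HV.XS

/-!
# Project HV (MP_bae8ce_ag), module L1C: the functional `L1` from the value at infinity
-/

set_option autoImplicit false

namespace Pool.Agent.Helper19.HV

noncomputable section

open PL

private def bD {F : Type} (D' : F → F → ℚ) : (F →₀ ℚ) →ₗ[ℚ] (F →₀ ℚ) →ₗ[ℚ] ℚ :=
  Finsupp.linearCombination ℚ fun a => Finsupp.linearCombination ℚ fun b => (-3 : ℚ) * D' a b

private theorem bD_single {F : Type} (D' : F → F → ℚ) (a b : F) (r s : ℚ) :
    bD D' (Finsupp.single a r) (Finsupp.single b s) = r * (s * (-3 * D' a b)) := by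
  unfold bD
  rw [Finsupp.linearCombination_single, LinearMap.smul_apply, Finsupp.linearCombination_single,
    smul_eq_mul, smul_eq_mul]

private theorem bD_anti {F : Type} (D' : F → F → ℚ) (h : ∀ a b, D' a b = - D' b a)
    (p q : F →₀ ℚ) : bD D' p q = - bD D' q p := by
  induction p using Finsupp.induction_linear with
  | zero => simp
  | add p p' h1 h2 =>
    rw [map_add, LinearMap.add_apply, h1, h2, map_add]
    ring
  | single a r =>
    induction q using Finsupp.induction_linear with
    | zero => simp
    | add q q' h1 h2 =>
      rw [map_add, h1, h2, map_add, LinearMap.add_apply]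
      ring
    | single b s =>
      rw [bD_single, bD_single, h a b]
      ring

/-- L1C. -/
theorem mL1C {F : Type} [Field F] {cV : V F →ₗ[ℚ] V (RatFunc F)}
    {lc : V (RatFunc F) →ₗ[ℚ] V F} {od : V (RatFunc F) →ₗ[ℚ] (F →₀ ℚ)} (hs : Spl cV lc od)
    {vi : P1 (RatFunc F) → P1 F} (hvi : Vinf vi)
    (hROG : ∀ D : F → ℚ, FT5 D → Kil 2 (ext0 D)) (D : F → F → F → ℚ)
    (hD : ∀ a b, a ≠ b → FT5 (D a b)) (hsym : ∀ a b, a ≠ b → ∀ c, D b a c = D a b (1 - c)) :
    ∃ L, Ls L ∧ (∀ x (u : F) k, L x (lg (RatFunc.C u)) k = 0) ∧
      ∀ x a b, a ≠ b → L x (E a) (E b) = -3 * ext0 (D a b) (vi x) := by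
  classical
  let D' : P1 F → F → F → ℚ := fun c a b => if a = b then 0 else ext0 (D a b) c
  have hanti : ∀ c a b, D' c a b = - D' c b a := by
    intro c a b
    by_cases hab : a = b
    · subst hab
      simp [D']
    · have hba : b ≠ a := fun h => hab h.symm
      simp only [D', if_neg hab, if_neg hba]
      rcases c with _ | c
      · simp [ext0]
      · show D a b c = - D b a c
        rw [hsym a b hab c, (hD a b hab).one_sub, neg_neg]
  let L : P1 (RatFunc F) → (V (RatFunc F) →ₗ[ℚ] V (RatFunc F) →ₗ[ℚ] ℚ) :=
    fun x => (bD (D' (vi x))).compl₁₂ od od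
  have hL : ∀ x k l, L x k l = bD (D' (vi x)) (od k) (od l) := fun x k l => rfl
  have hu : ∀ x (u : F) k, L x (lg (RatFunc.C u)) k = 0 := by
    intro x u k
    rw [hL, hs.od_C, map_zero, LinearMap.zero_apply]
  refine ⟨L, ⟨?_, ?_, fun c u k => hu _ u k⟩, hu, ?_⟩
  · intro α hα
    have hkey : ∀ p q : F →₀ ℚ,
        Finsupp.linearCombination ℚ (fun x => bD (D' (vi x)) p q) α = 0 := by
      intro p q
      induction p using Finsupp.induction_linear with
      | zero => simp [Finsupp.linearCombination_apply, Finsupp.sum]
      | add p p' h1 h2 =>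
        have : (fun x => bD (D' (vi x)) (p + p') q) =
            (fun x => bD (D' (vi x)) p q) + fun x => bD (D' (vi x)) p' q := by
          funext x
          rw [map_add, LinearMap.add_apply]
          rfl
        rw [this]
        rw [Finsupp.linearCombination_apply, Finsupp.sum] at h1 h2 ⊢
        rw [← add_zero (0 : ℚ)]
        nth_rewrite 1 [← h1]
        rw [← h2, ← Finset.sum_add_distrib]
        exact Finset.sum_congr rfl fun x _ => smul_add _ _ _
      | single a r =>
        induction q using Finsupp.induction_linear with
        | zero => simp [Finsupp.linearCombination_apply, Finsupp.sum]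
        | add q q' h1 h2 =>
          have : (fun x => bD (D' (vi x)) (Finsupp.single a r) (q + q')) =
              (fun x => bD (D' (vi x)) (Finsupp.single a r) q) +
                fun x => bD (D' (vi x)) (Finsupp.single a r) q' := by
            funext x
            rw [map_add]
            rfl
          rw [this]
          rw [Finsupp.linearCombination_apply, Finsupp.sum] at h1 h2 ⊢
          rw [← add_zero (0 : ℚ)]
          nth_rewrite 1 [← h1]
          rw [← h2, ← Finset.sum_add_distrib]
          exact Finset.sum_congr rfl fun x _ => smul_add _ _ _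
        | single b s =>
          have h1 : Finsupp.linearCombination ℚ (fun x => D' (vi x) a b) α = 0 := by
            by_cases hab : a = b
            · simp [D', hab, Finsupp.linearCombination_apply, Finsupp.sum]
            · have h2 := hROG (D a b) (hD a b hab) _ (hvi.kil 0 α hα)
              rw [Finsupp.linearCombination_mapDomain] at h2
              simp only [D', if_neg hab]
              exact h2
          rw [Finsupp.linearCombination_apply, Finsupp.sum] at h1 ⊢
          have h3 : ∀ x ∈ α.support, α x • (fun x => bD (D' (vi x)) (Finsupp.single a r)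
              (Finsupp.single b s)) x = (r * (s * -3)) * (α x • D' (vi x) a b) := by
            intro x _
            show α x • bD (D' (vi x)) (Finsupp.single a r) (Finsupp.single b s) = _
            rw [bD_single, smul_eq_mul, smul_eq_mul]
            ring
          rw [Finset.sum_congr rfl h3, ← Finset.mul_sum, h1, mul_zero]
    refine LinearMap.ext fun k => LinearMap.ext fun l => ?_
    have h4 := hkey (od k) (od l)
    rw [Finsupp.linearCombination_apply, Finsupp.sum] at h4 ⊢
    rw [LinearMap.sum_apply, LinearMap.sum_apply, LinearMap.zero_apply, LinearMap.zero_apply]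
    exact h4
  · intro x v
    have h := bD_anti (D' (vi x)) (hanti (vi x)) (od v) (od v)
    rw [hL]
    linarith
  · intro x a b hab
    rw [hL, hs.od_E, hs.od_E, bD_single]
    simp only [D', if_neg hab]
    ring

end

end Pool.Agent.Helper19.HV
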