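import Pool.Agent.Helper19.HV.XS

/-!
# Project HV (MP_bae8ce_ag), module LAF: forms give functionals
-/

set_option autoImplicit false

namespace Pool.Agent.Helper19.HV

noncomputable section

open PL

/-- LAF.  Forms give functionals. -/
theorem mLAF {F : Type} [Field F]
    (hF2 : ∀ {G N : Type} [Field G] [AddCommGroup N] [Module ℚ N]
      (A : V G →ₗ[ℚ] V G →ₗ[ℚ] N), Al2 A → Kil 2 (sy2 A))
    (L4 : F4 F) (h1 : ∀ v k l, L4 v v k l = 0) (h2 : ∀ v w k, L4 v w k k = 0)
    (h3 : ∀ (c d u : F) k, L4 (lg (RatFunc.C c)) (lg (RatFunc.C d)) (lg (RatFunc.C u)) k = 0) :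
    Ls fun x => L4 (cl1 x) (cl x) := by
  refine ⟨?_, fun x v => h2 _ _ v, ?_⟩
  · exact hF2 L4 fun v => LinearMap.ext fun k => LinearMap.ext fun l => h1 v k l
  · intro c u k
    rcases c with _ | c
    · show L4 (cl1 (cst (none : P1 F))) (0 : V (RatFunc F)) (lg (RatFunc.C u)) k = 0
      rw [map_zero, LinearMap.zero_apply, LinearMap.zero_apply]
    · show L4 (lg (1 - RatFunc.C c)) (lg (RatFunc.C c)) (lg (RatFunc.C u)) k = 0
      rw [show (1 - RatFunc.C c : RatFunc F) = RatFunc.C (1 - c) by rw [map_sub, map_one]]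
      exact h3 _ _ _ _

end

end Pool.Agent.Helper19.HV
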