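import Pool.Agent.Helper19.HV.XS

/-!
# Project HV (MP_bae8ce_ag), module SYM: symmetrisation of `M`
-/

set_option autoImplicit false

namespace Pool.Agent.Helper19.HV

noncomputable section

open PL

/-- SYM. -/
theorem mSYM {F : Type} [Field F] (M : F4 F) (hM : ∀ v w z, M v v w z = 0) (hc : Cv4 M) :
    ∃ φ : F4 F, Frm φ ∧ (∀ w v, φ w v v v = M w v v v) ∧
      ∀ w a b, 3 * φ w a a b = M w a a b + M w a b a + M w b a a := by
  obtain ⟨φ, hφ⟩ := mk4 (fun w a b c : V (RatFunc F) => (1 / 6 : ℚ) *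
      (M w a b c + M w a c b + M w b a c + M w b c a + M w c a b + M w c b a))
    (fun _ _ _ => ⟨fun _ _ => by
      simp only [map_add, LinearMap.add_apply]; ring, fun _ _ => by
      simp only [map_smul, LinearMap.smul_apply, smul_eq_mul]; ring⟩)
    (fun _ _ _ => ⟨fun _ _ => by
      simp only [map_add, LinearMap.add_apply]; ring, fun _ _ => by
      simp only [map_smul, LinearMap.smul_apply, smul_eq_mul]; ring⟩)
    (fun _ _ _ => ⟨fun _ _ => by
      simp only [map_add, LinearMap.add_apply]; ring, fun _ _ => by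
      simp only [map_smul, LinearMap.smul_apply, smul_eq_mul]; ring⟩)
    (fun _ _ _ => ⟨fun _ _ => by
      simp only [map_add, LinearMap.add_apply]; ring, fun _ _ => by
      simp only [map_smul, LinearMap.smul_apply, smul_eq_mul]; ring⟩)
  refine ⟨φ, ⟨?_, ?_, ?_, ?_, ?_⟩, ?_, ?_⟩
  · intro w a b c
    rw [hφ, hφ]; ring
  · intro w a b c
    rw [hφ, hφ]; ring
  · intro v
    rw [hφ, hM]; ring
  · intro c a b d
    rw [hφ, hc.c1, hc.c1, hc.c1, hc.c1, hc.c1, hc.c1]; ring
  · intro c w a b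
    rw [hφ, hc.c2, hc.c2, hc.c3, hc.c3, hc.c4, hc.c4]; ring
  · intro w v
    rw [hφ]; ring
  · intro w a b
    rw [hφ]; ring

end

end Pool.Agent.Helper19.HV
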